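import Mathlib
import Pool.Agent.H.MP_0cd67c_ag.F

set_option autoImplicit false

namespace Pool.Agent.Results.MP_0cd67c_ag.Q1

open Polynomial

theorem result (n d : ℕ) (hn : 1 ≤ n) (hd : 2 ≤ d) (γ : ℕ → ℝ) (T : ℝ[X] →ₗ[ℝ] ℝ[X])
    (h1 : ∀ i, i ≤ n → i ≤ d → i ≠ 1 → T (X ^ (n - i)) = C (γ i) * X ^ (d - i))
    (h2 : ∀ i, i ≤ n → d < i → T (X ^ (n - i)) = 0)
    (hs : (T ((X - 1) ^ (n - 1) * (X + C ((n : ℝ) - 1)))).Splits)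
    (hsg : d - 1 ≤ ((T ((X - 1) ^ (n - 1) * (X + C ((n : ℝ) - 1)))).roots.filter
        fun x => 0 ≤ x).card ∨
      d - 1 ≤ ((T ((X - 1) ^ (n - 1) * (X + C ((n : ℝ) - 1)))).roots.filter
        fun x => x ≤ 0).card)
    (g : ℝ[X]) (hg : g.natDegree ≤ n) (hg1 : g.coeff (n - 1) = 0) (hgs : g.Splits) :
    (T g).natDegree ≤ d ∧ (T g).coeff (d - 1) = 0 ∧ (T g).Splits :=
  Pool.Agent.H.MP_0cd67c_ag.main n d hn hd γ T h1 h2 _ rfl hs hsg g hg hg1 hgs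

end Pool.Agent.Results.MP_0cd67c_ag.Q1
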